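import Pool.Agent.Lib.MP_ea1188_al.KG.Iface

/-! # [TRANS] tameness passes from a subgroup of index `2` to the group (helper36). -/

set_option autoImplicit false

namespace KG.H36

open Matrix

/-- `ι × Fin 2 ≃ ι ⊕ ι` -/
def e2 (ι : Type) : ι × Fin 2 ≃ ι ⊕ ι where
  toFun p := if p.2 = 0 then Sum.inl p.1 else Sum.inr p.1
  invFun := Sum.elim (fun i => (i, 0)) (fun i => (i, 1))
  left_inv := by
    rintro ⟨i, j⟩
    fin_cases j <;> simp
  right_inv := by rintro (i | i) <;> simp

/-- A homomorphism to `2 × 2` matrices which is conjugate to a block triangular one with equal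
diagonal entries doubles the class. -/
theorem cls_double {κ : Kind} {R : Type} [Ring R] (T : KT κ R) {A : Type} [Ring A]
    (Φ : A →+* Matrix (Fin 2) (Fin 2) R) (φ : A →+* R) (G G' : Matrix (Fin 2) (Fin 2) R)
    (h1 : G * G' = 1) (h2 : G' * G = 1) (h00 : ∀ y, (G * Φ y * G') 0 0 = φ y)
    (h10 : ∀ y, (G * Φ y * G') 1 0 = 0) (h11 : ∀ y, (G * Φ y * G') 1 1 = φ y)
    {ι : Type} [Fintype ι] [DecidableEq ι] (x : Matrix ι ι A) (hx : P κ x) :
    T.cls (Matrix.compRingEquiv ι (Fin 2) R (x.map Φ)) = (2 : ℕ) • T.cls (x.map φ) := by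
  have hP1 : P κ (Matrix.compRingEquiv ι (Fin 2) R (x.map Φ)) :=
    P_map (Matrix.compRingEquiv ι (Fin 2) R).toRingHom (P_mapMatrix Φ hx)
  have hPφ : P κ (x.map φ) := P_mapMatrix φ hx
  -- the big conjugating matrices
  have hd : ∀ (a b : Matrix (Fin 2) (Fin 2) R), a * b = 1 →
      Matrix.compRingEquiv ι (Fin 2) R (diagonal fun _ => a) *
        Matrix.compRingEquiv ι (Fin 2) R (diagonal fun _ => b) = 1 := by
    intro a b hab
    rw [← map_mul, diagonal_mul_diagonal]
    simp only [hab]
    rw [diagonal_one, map_one]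
  have e1 := T.conj _ _ _ (hd G G' h1) (hd G' G h2) hP1
  have e3 : Matrix.compRingEquiv ι (Fin 2) R (diagonal fun _ => G) *
      Matrix.compRingEquiv ι (Fin 2) R (x.map Φ) *
      Matrix.compRingEquiv ι (Fin 2) R (diagonal fun _ => G') =
      Matrix.compRingEquiv ι (Fin 2) R (x.map (fun y => G * Φ y * G')) := by
    rw [← map_mul, ← map_mul]
    congr 1
    ext1 i j
    rw [mul_diagonal, diagonal_mul]
    rfl
  rw [e3] at e1
  have hP2 : P κ (Matrix.compRingEquiv ι (Fin 2) R (x.map (fun y => G * Φ y * G'))) := by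
    rw [← e3]
    cases κ with
    | unit =>
      have hu1 : IsUnit (Matrix.compRingEquiv ι (Fin 2) R (diagonal fun _ => G)) :=
        ⟨⟨_, _, hd G G' h1, hd G' G h2⟩, rfl⟩
      have hu2 : IsUnit (Matrix.compRingEquiv ι (Fin 2) R (diagonal fun _ => G')) :=
        ⟨⟨_, _, hd G' G h2, hd G G' h1⟩, rfl⟩
      exact (hu1.mul hP1).mul hu2
    | idem =>
      have hP1' : Matrix.compRingEquiv ι (Fin 2) R (x.map Φ) *
        Matrix.compRingEquiv ι (Fin 2) R (x.map Φ) =
        Matrix.compRingEquiv ι (Fin 2) R (x.map Φ) := hP1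
      have hgg := hd G' G h2
      set a := Matrix.compRingEquiv ι (Fin 2) R (diagonal fun _ => G)
      set b := Matrix.compRingEquiv ι (Fin 2) R (diagonal fun _ => G')
      set m := Matrix.compRingEquiv ι (Fin 2) R (x.map Φ)
      show a * m * b * (a * m * b) = a * m * b
      calc a * m * b * (a * m * b) = a * m * (b * a) * m * b := by simp only [mul_assoc]
        _ = a * (m * m) * b := by rw [hgg, mul_one]; simp only [mul_assoc]
        _ = a * m * b := by rw [hP1']
  have e4 : Matrix.reindex (e2 ι) (e2 ι)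
      (Matrix.compRingEquiv ι (Fin 2) R (x.map (fun y => G * Φ y * G'))) =
      fromBlocks (x.map φ) (x.map (fun y => (G * Φ y * G') 0 1)) 0 (x.map φ) := by
    ext i j
    rcases i with i | i <;> rcases j with j | j
    · simp [e2, h00]
    · simp [e2]
    · simp [e2, h10]
    · simp [e2, h11]
  have e5 := T.rein (e2 ι) _ hP2
  rw [← e1, ← e5, e4]
  have hP3 : P κ (fromBlocks (x.map φ) (x.map (fun y => (G * Φ y * G') 0 1)) 0 (x.map φ)) := by
    rw [← e4]
    exact P_map (Matrix.reindexRingEquiv R (e2 ι)).toRingHom hP2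
  rw [T.tri _ _ _ hPφ hPφ hP3, two_nsmul]

/-- The monoid homomorphism `Γ → M₂(F₂[H])` which induces the transfer. -/
noncomputable def resM {Γ : Type} [Group Γ] (H : Subgroup Γ) (hH : H.index = 2) (s : Γ)
    (hs : s ∉ H) : Γ →* Matrix (Fin 2) (Fin 2) (MonoidAlgebra (ZMod 2) H) := by
  classical
  exact
  { toFun := fun g => if hg : g ∈ H then
        !![MonoidAlgebra.of (ZMod 2) H ⟨g, hg⟩, 0; 0,
          MonoidAlgebra.of (ZMod 2) H ⟨s⁻¹ * g * s, by
            rw [Subgroup.mul_mem_iff_of_index_two hH, Subgroup.mul_mem_iff_of_index_two hH,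
              inv_mem_iff]
            simp [hs, hg]⟩]
      else
        !![0, MonoidAlgebra.of (ZMod 2) H ⟨g * s, by
            rw [Subgroup.mul_mem_iff_of_index_two hH]
            simp [hs, hg]⟩;
          MonoidAlgebra.of (ZMod 2) H ⟨s⁻¹ * g, by
            rw [Subgroup.mul_mem_iff_of_index_two hH, inv_mem_iff]
            simp [hs, hg]⟩, 0]
    map_one' := by
      rw [dif_pos (one_mem H)]
      have h1 : (⟨s⁻¹ * 1 * s, by simp⟩ : H) = 1 := by
        ext
        simp
      have h2 : (⟨1, one_mem H⟩ : H) = 1 := rfl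
      rw [h1, h2, map_one]
      ext i j
      fin_cases i <;> fin_cases j <;> simp
    map_mul' := by
      intro g g'
      by_cases hg : g ∈ H <;> by_cases hg' : g' ∈ H
      · have h : g * g' ∈ H := mul_mem hg hg'
        rw [dif_pos h, dif_pos hg, dif_pos hg']
        ext1 i j
        fin_cases i <;> fin_cases j <;>
          simp [Matrix.mul_apply, Fin.sum_univ_two, MonoidAlgebra.single_mul_single, mul_assoc]
      · have h : g * g' ∉ H := by
          rw [Subgroup.mul_mem_iff_of_index_two hH]
          simp [hg, hg']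
        rw [dif_neg h, dif_pos hg, dif_neg hg']
        ext1 i j
        fin_cases i <;> fin_cases j <;>
          simp [Matrix.mul_apply, Fin.sum_univ_two, MonoidAlgebra.single_mul_single, mul_assoc]
      · have h : g * g' ∉ H := by
          rw [Subgroup.mul_mem_iff_of_index_two hH]
          simp [hg, hg']
        rw [dif_neg h, dif_neg hg, dif_pos hg']
        ext1 i j
        fin_cases i <;> fin_cases j <;>
          simp [Matrix.mul_apply, Fin.sum_univ_two, MonoidAlgebra.single_mul_single, mul_assoc]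
      · have h : g * g' ∈ H := by
          rw [Subgroup.mul_mem_iff_of_index_two hH]
          simp [hg, hg']
        rw [dif_pos h, dif_neg hg, dif_neg hg']
        ext1 i j
        fin_cases i <;> fin_cases j <;>
          simp [Matrix.mul_apply, Fin.sum_univ_two, MonoidAlgebra.single_mul_single, mul_assoc] }

theorem add_self_z {R : Type} [Ring R] [Algebra (ZMod 2) R] (r : R) : r + r = 0 := by
  have h : (2 : ZMod 2) • r = r + r := two_smul _ r
  rw [← h, show (2 : ZMod 2) = 0 from rfl, zero_smul]

theorem lft_of' {Γ R : Type} [Group Γ] [Ring R] [Algebra (ZMod 2) R] (ρ : Γ →* R) (g : Γ) :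
    lft ρ (MonoidAlgebra.of (ZMod 2) Γ g) = ρ g := by
  simp [lft]

theorem double_lft {κ : Kind} {R : Type} [Ring R] [Algebra (ZMod 2) R] (T : KT κ R) {Γ : Type}
    [Group Γ] (H : Subgroup Γ) (hH : H.index = 2) (s : Γ) (hs : s ∉ H) (ρ : Γ →* R)
    {ι : Type} [Fintype ι] [DecidableEq ι] (x : Matrix ι ι (MonoidAlgebra (ZMod 2) Γ))
    (hx : P κ x) :
    T.cls ((Matrix.compRingEquiv ι (Fin 2) (MonoidAlgebra (ZMod 2) H)
      (x.map (lft (resM H hH s hs)))).map (lft (ρ.comp H.subtype))) =
      (2 : ℕ) • T.cls (x.map (lft ρ)) := by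
  classical
  have hss : ρ s * ρ s⁻¹ = 1 := by rw [← map_mul, mul_inv_cancel, map_one]
  have hss' : ρ s⁻¹ * ρ s = 1 := by rw [← map_mul, inv_mul_cancel, map_one]
  have key : ∀ y : MonoidAlgebra (ZMod 2) Γ,
      (!![1, 0; 1, ρ s] * ((lft (ρ.comp H.subtype)).mapMatrix.comp (lft (resM H hH s hs))) y *
        !![1, 0; ρ s⁻¹, ρ s⁻¹]) 0 0 = lft ρ y ∧
      (!![1, 0; 1, ρ s] * ((lft (ρ.comp H.subtype)).mapMatrix.comp (lft (resM H hH s hs))) y *
        !![1, 0; ρ s⁻¹, ρ s⁻¹]) 1 0 = 0 ∧
      (!![1, 0; 1, ρ s] * ((lft (ρ.comp H.subtype)).mapMatrix.comp (lft (resM H hH s hs))) y *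
        !![1, 0; ρ s⁻¹, ρ s⁻¹]) 1 1 = lft ρ y := by
    intro y
    induction y using MonoidAlgebra.induction_on with
    | of g =>
      rw [lft_of', RingHom.comp_apply, lft_of']
      by_cases hg : g ∈ H
      · have e : resM H hH s hs g = _ := dif_pos hg
        rw [e]
        have e2 : ρ s * ρ (s⁻¹ * g * s) * ρ s⁻¹ = ρ g := by
          rw [← map_mul, ← map_mul]
          congr 1
          group
        refine ⟨?_, ?_, ?_⟩
        · simp only [RingHom.mapMatrix_apply, Matrix.mul_apply, Fin.sum_univ_two, Matrix.map_apply,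
            lft_of', map_zero, Matrix.of_apply, Matrix.cons_val', Matrix.cons_val_zero,
            Matrix.cons_val_one, Matrix.cons_val_fin_one, one_mul, mul_one, mul_zero, zero_mul,
            add_zero, MonoidHom.comp_apply, Subgroup.coe_subtype]
        · simp only [RingHom.mapMatrix_apply, Matrix.mul_apply, Fin.sum_univ_two, Matrix.map_apply,
            lft_of', map_zero, Matrix.of_apply, Matrix.cons_val', Matrix.cons_val_zero,
            Matrix.cons_val_one, Matrix.cons_val_fin_one, one_mul, mul_one, mul_zero, zero_mul,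
            add_zero, zero_add, MonoidHom.comp_apply, Subgroup.coe_subtype]
          rw [e2]
          exact add_self_z _
        · simp only [RingHom.mapMatrix_apply, Matrix.mul_apply, Fin.sum_univ_two, Matrix.map_apply,
            lft_of', map_zero, Matrix.of_apply, Matrix.cons_val', Matrix.cons_val_zero,
            Matrix.cons_val_one, Matrix.cons_val_fin_one, one_mul, mul_one, mul_zero, zero_mul,
            add_zero, zero_add, MonoidHom.comp_apply, Subgroup.coe_subtype]
          rw [e2]
      · have e : resM H hH s hs g = _ := dif_neg hg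
        rw [e]
        have e2 : ρ (g * s) * ρ s⁻¹ = ρ g := by
          rw [← map_mul]
          congr 1
          group
        have e3 : ρ s * ρ (s⁻¹ * g) = ρ g := by
          rw [← map_mul]
          congr 1
          group
        refine ⟨?_, ?_, ?_⟩
        · simp only [RingHom.mapMatrix_apply, Matrix.mul_apply, Fin.sum_univ_two, Matrix.map_apply,
            lft_of', map_zero, Matrix.of_apply, Matrix.cons_val', Matrix.cons_val_zero,
            Matrix.cons_val_one, Matrix.cons_val_fin_one, one_mul, mul_one, mul_zero, zero_mul,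
            add_zero, zero_add, MonoidHom.comp_apply, Subgroup.coe_subtype]
          rw [e2]
        · simp only [RingHom.mapMatrix_apply, Matrix.mul_apply, Fin.sum_univ_two, Matrix.map_apply,
            lft_of', map_zero, Matrix.of_apply, Matrix.cons_val', Matrix.cons_val_zero,
            Matrix.cons_val_one, Matrix.cons_val_fin_one, one_mul, mul_one, mul_zero, zero_mul,
            add_zero, zero_add, MonoidHom.comp_apply, Subgroup.coe_subtype]
          rw [e2, e3]
          exact add_self_z _
        · simp only [RingHom.mapMatrix_apply, Matrix.mul_apply, Fin.sum_univ_two, Matrix.map_apply,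
            lft_of', map_zero, Matrix.of_apply, Matrix.cons_val', Matrix.cons_val_zero,
            Matrix.cons_val_one, Matrix.cons_val_fin_one, one_mul, mul_one, mul_zero, zero_mul,
            add_zero, zero_add, MonoidHom.comp_apply, Subgroup.coe_subtype]
          rw [e2]
    | add a b ha hb =>
      simp only [map_add, Matrix.mul_add, Matrix.add_mul, Matrix.add_apply]
      rw [ha.1, ha.2.1, ha.2.2, hb.1, hb.2.1, hb.2.2]
      simp
    | smul r a ha =>
      have hr : ∀ r : ZMod 2, r = 0 ∨ r = 1 := by decide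
      rcases hr r with rfl | rfl
      · simp
      · rw [one_smul]
        exact ha
  have h := cls_double T ((lft (ρ.comp H.subtype)).mapMatrix.comp (lft (resM H hH s hs)))
    (lft ρ) !![1, 0; 1, ρ s] !![1, 0; ρ s⁻¹, ρ s⁻¹] ?_ ?_ (fun y => (key y).1)
    (fun y => (key y).2.1) (fun y => (key y).2.2) x hx
  · exact h
  · ext i j
    fin_cases i <;> fin_cases j <;> simp [Matrix.mul_apply, Fin.sum_univ_two, hss, add_self_z]
  · ext i j
    fin_cases i <;> fin_cases j <;> simp [Matrix.mul_apply, Fin.sum_univ_two, hss', add_self_z]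

theorem trans : TransferS := by
  intro κ R _ _ T Γ _ H hH ρ hρ
  obtain ⟨s, hs⟩ : ∃ s, s ∉ H := by
    by_contra hcon
    push Not at hcon
    have h1 : H = ⊤ := (Subgroup.eq_top_iff' H).2 hcon
    rw [h1, Subgroup.index_top] at hH
    norm_num at hH
  intro ι _ _ x hx
  have hP : P κ (Matrix.compRingEquiv ι (Fin 2) (MonoidAlgebra (ZMod 2) H)
      (x.map (lft (resM H hH s hs)))) :=
    P_map (Matrix.compRingEquiv ι (Fin 2) (MonoidAlgebra (ZMod 2) H)).toRingHom
      (P_mapMatrix (lft (resM H hH s hs)) hx)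
  obtain ⟨M, hM⟩ := hρ (ι × Fin 2) _ hP
  refine ⟨M + 1, ?_⟩
  have h1 := double_lft T H hH s hs ρ x hx
  have h2 := double_lft T H hH s hs (1 : Γ →* R) x hx
  have h3 : (1 : Γ →* R).comp H.subtype = 1 := rfl
  rw [h3] at h2
  rw [h1, h2, ← mul_smul, ← mul_smul, ← pow_succ] at hM
  exact hM

end KG.H36
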